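import Pool.Agent.H88.FA.Plateau

/-!
MP_3e4ee0_nt, plateaus of the largest least factor `l(n)` of `n!` (`ell n` in `Pool.Agent.H88.FA.Defs`).
-/

namespace Pool.Agent.Results.MP_3e4ee0_nt.Plateaus

open Pool.Agent.H88.FA

/-- If `n ≥ 6` and `l(n) = l(n+k) = v`, then `v ^ (⌊k/2⌋ + 1)` divides `n!`. -/
theorem result (n k : ℕ) (hn : 6 ≤ n) (h : ell (n + k) = ell n) :
    ell n ^ (k / 2 + 1) ∣ n.factorial :=
  plateau_bound hn h

end Pool.Agent.Results.MP_3e4ee0_nt.Plateaus
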