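import Pool.Agent.H88.FA.Gap

/-!
MP_3e4ee0_nt, gaps of the largest least factor `l(n)` of `n!` (`ell n` in `Pool.Agent.H88.FA.Defs`) and gaps
between primes.
-/

namespace Pool.Agent.Results.MP_3e4ee0_nt.PrimeWindow

open Pool.Agent.H88.FA

/-- Let `p` be a prime factor of `n + 1` and `K = cost ((n+1)/p)`, the sum of `⌈log₂ q⌉` over the prime factors `q`
of `(n+1)/p` with multiplicity. If `t ≤ l(n+1)` and the interval `[t, l(n+1))` contains at least `K` primes, then
`t ≤ l(n)`. So `l(n+1) - l(n)` is at most the distance from `l(n+1)` to the `K`-th prime below it. -/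
theorem result (n p t : ℕ) (hn : 1 ≤ n) (hp : p.Prime) (hpn : p ∣ n + 1) (ht : t ≤ ell (n + 1))
    (hW : cost ((n + 1) / p) ≤ ((Finset.Ico t (ell (n + 1))).filter Nat.Prime).card) :
    t ≤ ell n :=
  gap_bound hn hp hpn ht hW

end Pool.Agent.Results.MP_3e4ee0_nt.PrimeWindow
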