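import Pool.Agent.H88.FA.Cor

/-!
MP_3e4ee0_nt, an unconditional upper bound for the gaps of the largest least factor `l(n)` of `n!`
(`ell n` in `Pool.Agent.H88.FA.Defs`).
-/

namespace Pool.Agent.Results.MP_3e4ee0_nt.UnconditionalGap

open Pool.Agent.H88.FA

/-- There are positive constants `a`, `C` with `l(n+1) - l(n) ≤ C n exp(-a (log n)^{1/10})` for all `n ≥ 1`. -/
theorem result : ∃ a C : ℝ, 0 < a ∧ 0 < C ∧ ∀ n : ℕ, 1 ≤ n →
    (ell (n + 1) : ℝ) ≤ ell n + C * n * Real.exp (-a * (Real.log n) ^ ((1 : ℝ) / 10)) :=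
  gap_pnt

end Pool.Agent.Results.MP_3e4ee0_nt.UnconditionalGap
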